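import Mathlib

/-!
# The locating chromatic number of Cartesian products

For every `t` there is a finite connected graph `G` with `χ_L(G □ G) ≥ χ_L(G) + t`.

The graph `G = Gr β`: for every `i < β` there is a path `L i - A i - B i`; for every sequence
`s : Fin β → Fin 3` there is a vertex `v s`, adjacent to `A i` if `s i = 0` and to `B i` if `s i = 1`;
and one vertex `W` is adjacent to all the `v s`. The distance from `v s` to `L i` is `s i + 2`, so that
`β + 4` colours suffice for a locating colouring, the diameter is at most `4`, and the order is more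
than `3 ^ β`. In the product distances are at most `8`, so that a locating colouring with `k` colours
exists only if `9 ^ β ≤ k * 8 ^ k`.
-/

set_option autoImplicit false

namespace Pool.Agent.Results.MP_fc8d4d_co.UnboundedGap

open SimpleGraph

/-- The distance `d(v, C)` from a vertex to a set of vertices. -/
noncomputable def distToSet {V : Type*} (G : SimpleGraph V) (v : V) (C : Set V) : ℕ :=
  sInf (G.dist v '' C)

/-- `c` is a proper colouring such that distinct vertices have distinct colour codes; the colour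
code of `v` is the vector of the distances from `v` to the colour classes. -/
def IsLocating {V : Type*} (G : SimpleGraph V) {k : ℕ} (c : V → Fin k) : Prop :=
  (∀ u v, G.Adj u v → c u ≠ c v) ∧
  ∀ u v, (∀ j, distToSet G u {w | c w = j} = distToSet G v {w | c w = j}) → u = v

/-- The locating chromatic number: the least number of colours (all of them used) in a locating
colouring. -/
noncomputable def locatingChromaticNumber {V : Type*} (G : SimpleGraph V) : ℕ :=
  sInf {k | ∃ c : V → Fin k, Function.Surjective c ∧ IsLocating G c}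

/-! ### The graph -/

/-- `(i, 0)`, `(i, 1)`, `(i, 2)` are `L i`, `A i`, `B i`; then come the `v s`; and `W`. -/
abbrev Vx (β : ℕ) := (Fin β × Fin 3) ⊕ ((Fin β → Fin 3) ⊕ Unit)

/-- one direction of the adjacency -/
def adj0 {β : ℕ} : Vx β → Vx β → Prop
  | Sum.inl (i, a), Sum.inl (j, b) => i = j ∧ a.val + 1 = b.val
  | Sum.inl (i, a), Sum.inr (Sum.inl s) => a.val = (s i).val + 1
  | Sum.inr (Sum.inl _), Sum.inr (Sum.inr _) => True
  | _, _ => False

/-- the graph -/
def Gr (β : ℕ) : SimpleGraph (Vx β) where
  Adj x y := adj0 x y ∨ adj0 y x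
  symm := ⟨fun _ _ h => h.symm⟩
  loopless := ⟨fun x h => by
    rcases x with ⟨i, a⟩ | s | u
    · rcases h with h | h <;> exact absurd h.2 (by omega)
    · rcases h with h | h <;> exact h
    · rcases h with h | h <;> exact h⟩

/-- the function which equals the distance to `L i` (where it matters) -/
def f {β : ℕ} (i : Fin β) : Vx β → ℕ
  | Sum.inl (j, a) => if j = i then a.val else 3
  | Sum.inr (Sum.inl s) => (s i).val + 2
  | Sum.inr (Sum.inr _) => 3

theorem f_lip0 {β : ℕ} (i : Fin β) (x y : Vx β) (h : adj0 x y) : f i x ≤ f i y + 1 ∧ f i y ≤ f i x + 1 := by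
  rcases x with ⟨j, a⟩ | s | u <;> rcases y with ⟨j', b⟩ | s' | u'
  · obtain ⟨rfl, h⟩ := h
    simp only [f]
    split_ifs <;> omega
  · have h' : a.val = (s' j).val + 1 := h
    simp only [f]
    have := (s' i).isLt
    split_ifs with hj
    · subst hj; omega
    · omega
  · exact h.elim
  · exact h.elim
  · exact h.elim
  · simp only [f]
    have := (s i).isLt
    omega
  · exact h.elim
  · exact h.elim
  · exact h.elim

theorem f_lip {β : ℕ} (i : Fin β) (x y : Vx β) (h : (Gr β).Adj x y) : f i x ≤ f i y + 1 := by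
  rcases h with h | h
  · exact (f_lip0 i x y h).1
  · exact (f_lip0 i y x h).2

theorem f_walk {β : ℕ} (i : Fin β) {x y : Vx β} (p : (Gr β).Walk x y) :
    f i x ≤ f i y + p.length := by
  induction p with
  | nil => simp
  | cons h p ih =>
    have := f_lip i _ _ h
    rw [Walk.length_cons]
    omega

theorem fin3_pred : ∀ b : Fin 3, b ≠ 0 → ∃ b' : Fin 3, b.val = b'.val + 1 := by decide

theorem fin3_cases : ∀ a : Fin 3, a = 0 ∨ a = 1 ∨ a = 2 := by decide

/-! ### Short walks -/

/-- there is a walk of length at most `n` -/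
def Reach {V : Type*} (G : SimpleGraph V) (n : ℕ) (x y : V) : Prop :=
  ∃ p : G.Walk x y, p.length ≤ n

theorem Reach.refl {V : Type*} {G : SimpleGraph V} (n : ℕ) (x : V) : Reach G n x x :=
  ⟨Walk.nil, by simp⟩

theorem Reach.of_adj {V : Type*} {G : SimpleGraph V} {x y : V} (h : G.Adj x y) : Reach G 1 x y :=
  ⟨h.toWalk, by simp⟩

theorem Reach.symm {V : Type*} {G : SimpleGraph V} {n : ℕ} {x y : V} (h : Reach G n x y) :
    Reach G n y x := by
  obtain ⟨p, hp⟩ := h
  exact ⟨p.reverse, by simpa using hp⟩

theorem Reach.trans {V : Type*} {G : SimpleGraph V} {m n : ℕ} {x y z : V} (h : Reach G m x y)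
    (h' : Reach G n y z) : Reach G (m + n) x z := by
  obtain ⟨p, hp⟩ := h
  obtain ⟨q, hq⟩ := h'
  exact ⟨p.append q, by rw [Walk.length_append]; omega⟩

theorem Reach.mono {V : Type*} {G : SimpleGraph V} {m n : ℕ} {x y : V} (h : Reach G m x y)
    (hmn : m ≤ n) : Reach G n x y := by
  obtain ⟨p, hp⟩ := h
  exact ⟨p, hp.trans hmn⟩

theorem Reach.map {V W : Type*} {G : SimpleGraph V} {H : SimpleGraph W} {n : ℕ} {x y : V}
    (h : Reach G n x y) (φ : G →g H) : Reach H n (φ x) (φ y) := by
  obtain ⟨p, hp⟩ := h
  exact ⟨p.map φ, by rw [Walk.length_map]; exact hp⟩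

theorem Reach.dist_le {V : Type*} {G : SimpleGraph V} {n : ℕ} {x y : V} (h : Reach G n x y) :
    G.dist x y ≤ n := by
  obtain ⟨p, hp⟩ := h
  exact (SimpleGraph.dist_le p).trans hp

section

variable {β : ℕ}

abbrev P (i : Fin β) (a : Fin 3) : Vx β := Sum.inl (i, a)
abbrev v (s : Fin β → Fin 3) : Vx β := Sum.inr (Sum.inl s)
abbrev W : Vx β := Sum.inr (Sum.inr ())

theorem adj01 (i : Fin β) : (Gr β).Adj (P i 0) (P i 1) := Or.inl ⟨rfl, rfl⟩
theorem adj12 (i : Fin β) : (Gr β).Adj (P i 1) (P i 2) := Or.inl ⟨rfl, rfl⟩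
theorem adjPv (i : Fin β) (a : Fin 3) (s : Fin β → Fin 3) (h : a.val = (s i).val + 1) :
    (Gr β).Adj (P i a) (v s) := Or.inl h
theorem adjvW (s : Fin β → Fin 3) : (Gr β).Adj (v s) W := Or.inl trivial

/-- `s` with value `a - 1` at `i` and `b - 1` at `j` -/
theorem reachPP (i j : Fin β) (a b : Fin 3) (ha : a ≠ 0) (hb : b ≠ 0) :
    Reach (Gr β) 2 (P i a) (P j b) := by
  by_cases hij : i = j
  · subst hij
    by_cases hab : a = b
    · subst hab; exact Reach.refl _ _
    · have : (a = 1 ∧ b = 2) ∨ (a = 2 ∧ b = 1) := by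
        revert a b; decide
      rcases this with ⟨rfl, rfl⟩ | ⟨rfl, rfl⟩
      · exact (Reach.of_adj (adj12 i)).mono (by norm_num)
      · exact (Reach.of_adj (adj12 i)).symm.mono (by norm_num)
  · obtain ⟨a', ha'⟩ := fin3_pred a ha
    obtain ⟨b', hb'⟩ := fin3_pred b hb
    have h1 : (Gr β).Adj (P i a) (v (fun k => if k = i then a' else b')) :=
      adjPv i a _ (by simpa using ha')
    have h2 : (Gr β).Adj (P j b) (v (fun k => if k = i then a' else b')) :=
      adjPv j b _ (by simpa [Ne.symm hij] using hb')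
    exact (Reach.of_adj h1).trans (Reach.of_adj h2).symm

theorem reach1P (i : Fin β) (a : Fin 3) : ∃ b : Fin 3, b ≠ 0 ∧ Reach (Gr β) 1 (P i a) (P i b) := by
  by_cases ha : a = 0
  · subst ha
    exact ⟨1, by decide, Reach.of_adj (adj01 i)⟩
  · exact ⟨a, ha, Reach.refl _ _⟩

theorem reachPW (i : Fin β) (a : Fin 3) : Reach (Gr β) 3 (P i a) W := by
  obtain ⟨b, hb, h⟩ := reach1P i a
  obtain ⟨b', hb'⟩ := fin3_pred b hb
  exact (h.trans (Reach.of_adj (adjPv i b (fun _ => b') hb'))).trans (Reach.of_adj (adjvW _))

theorem reachvW (x : (Fin β → Fin 3) ⊕ Unit) : Reach (Gr β) 1 (Sum.inr x) W := by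
  rcases x with s | u
  · exact Reach.of_adj (adjvW s)
  · exact Reach.refl _ _

theorem reach4 (x y : Vx β) : Reach (Gr β) 4 x y := by
  rcases x with ⟨i, a⟩ | x <;> rcases y with ⟨j, b⟩ | y
  · obtain ⟨a', ha', h1⟩ := reach1P i a
    obtain ⟨b', hb', h2⟩ := reach1P j b
    exact (h1.trans (reachPP i j a' b' ha' hb')).trans h2.symm
  · exact (reachPW i a).trans (reachvW y).symm
  · exact ((reachPW j b).trans (reachvW x).symm).symm
  · exact ((reachvW x).trans (reachvW y).symm).mono (by norm_num)

theorem connected : (Gr β).Connected := by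
  have : Nonempty (Vx β) := ⟨W⟩
  exact ⟨fun x y => by obtain ⟨p, -⟩ := reach4 x y; exact ⟨p⟩⟩

end

/-! ### The upper bound for `χ_L(G)` -/

section Upper

variable {β : ℕ}

/-- the locating colouring: `L i` has its own colour `i`, and the `A i`, the `B i`, the `v s` and
`W` have the colours `β`, `β + 1`, `β + 2`, `β + 3` -/
def col : Vx β → Fin (β + 4)
  | Sum.inl (i, a) => if a = 0 then ⟨i.val, by omega⟩ else
      if a = 1 then ⟨β, by omega⟩ else ⟨β + 1, by omega⟩
  | Sum.inr (Sum.inl _) => ⟨β + 2, by omega⟩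
  | Sum.inr (Sum.inr _) => ⟨β + 3, by omega⟩

theorem class_L (i : Fin β) : {w : Vx β | col w = ⟨i.val, by omega⟩} = {P i 0} := by
  ext w
  simp only [Set.mem_ofPred_eq, Set.mem_singleton_iff]
  rcases w with ⟨j, a⟩ | s | u
  · simp only [col]
    have hi := i.isLt
    have hj := j.isLt
    split_ifs with h1 h2
    · subst h1
      simp [Fin.ext_iff]
    · simp only [Fin.mk.injEq, Sum.inl.injEq, Prod.mk.injEq]
      constructor
      · intro h; omega
      · rintro ⟨-, h⟩; exact absurd h h1
    · simp only [Fin.mk.injEq, Sum.inl.injEq, Prod.mk.injEq]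
      constructor
      · intro h; omega
      · rintro ⟨-, h⟩; exact absurd h h1
  · simp only [col, Fin.mk.injEq, reduceCtorEq, iff_false]
    have hi := i.isLt
    omega
  · simp only [col, Fin.mk.injEq, reduceCtorEq, iff_false]
    have hi := i.isLt
    omega

theorem distToSet_singleton {V : Type*} (G : SimpleGraph V) (x y : V) :
    distToSet G x {y} = G.dist x y := by
  simp [distToSet]

theorem f_le_dist (i : Fin β) (x : Vx β) : f i x ≤ (Gr β).dist x (P i 0) := by
  obtain ⟨p, hp⟩ := (connected (β := β)).exists_walk_length_eq_dist x (P i 0)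
  have := f_walk i p
  have h0 : f i (P i 0) = 0 := by simp [f]
  omega

theorem dist_A (i : Fin β) : (Gr β).dist (P i 1) (P i 0) ≤ 1 :=
  (Reach.of_adj (adj01 i)).symm.dist_le

theorem dist_B (i : Fin β) : (Gr β).dist (P i 2) (P i 0) ≤ 2 :=
  ((Reach.of_adj (adj01 i)).trans (Reach.of_adj (adj12 i))).symm.dist_le

theorem dist_v (i : Fin β) (s : Fin β → Fin 3) (h : (s i).val < 2) :
    (Gr β).dist (v s) (P i 0) ≤ (s i).val + 2 := by
  have : (s i).val = 0 ∨ (s i).val = 1 := by omega
  rcases this with h0 | h0
  · rw [h0]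
    exact ((Reach.of_adj (adj01 i)).trans (Reach.of_adj (adjPv i 1 s (by rw [h0]; rfl)))).symm.dist_le
  · rw [h0]
    exact (((Reach.of_adj (adj01 i)).trans (Reach.of_adj (adj12 i))).trans
      (Reach.of_adj (adjPv i 2 s (by rw [h0]; rfl)))).symm.dist_le

theorem col_proper0 (x y : Vx β) (h : adj0 x y) : col x ≠ col y := by
  rcases x with ⟨i, a⟩ | s | u <;> rcases y with ⟨j, b⟩ | s' | u'
  · obtain ⟨rfl, h⟩ := h
    have hi := i.isLt
    have : (a = 0 ∧ b = 1) ∨ (a = 1 ∧ b = 2) := by
      revert a b; decide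
    rcases this with ⟨rfl, rfl⟩ | ⟨rfl, rfl⟩
    · simp [col, Fin.ext_iff]; omega
    · simp [col, Fin.ext_iff]
  · have hi := i.isLt
    simp only [col]
    split_ifs <;> (simp [Fin.ext_iff]; try omega)
  · exact h.elim
  · exact h.elim
  · exact h.elim
  · simp [col, Fin.ext_iff]
  · exact h.elim
  · exact h.elim
  · exact h.elim

theorem col_locating : IsLocating (Gr β) (col (β := β)) := by
  constructor
  · rintro x y (h | h)
    · exact col_proper0 x y h
    · exact (col_proper0 y x h).symm
  · intro x y hxy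
    -- the two vertices have the same colour
    have hsame : col x = col y := by
      have h1 := hxy (col x)
      have h2 : distToSet (Gr β) x {w | col w = col x} = 0 := by
        unfold distToSet
        rw [Nat.sInf_eq_zero]
        left
        exact ⟨x, rfl, SimpleGraph.dist_self⟩
      rw [h2] at h1
      have h3 : (Gr β).dist y '' {w | col w = col x} ≠ ∅ := by
        have : (Gr β).dist y x ∈ (Gr β).dist y '' {w | col w = col x} := ⟨x, rfl, rfl⟩
        intro h; rw [h] at this; exact this
      unfold distToSet at h1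
      rcases Nat.sInf_eq_zero.1 h1.symm with ⟨w, hw, hw0⟩ | h4
      · have := ((connected (β := β)).dist_eq_zero_iff).1 hw0
        rw [this]; exact hw.symm
      · exact absurd h4 h3
    have hL : ∀ i : Fin β, (Gr β).dist x (P i 0) = (Gr β).dist y (P i 0) := by
      intro i
      have := hxy ⟨i.val, by omega⟩
      rw [class_L i, distToSet_singleton, distToSet_singleton] at this
      exact this
    rcases x with ⟨i, a⟩ | s | u <;> rcases y with ⟨j, b⟩ | s' | u'
    · -- both on the paths
      have hi := i.isLt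
      have hj := j.isLt
      have hab : a = b ∧ (a = 0 → i = j) := by
        have ha := fin3_cases a
        have hb := fin3_cases b
        rcases ha with rfl | rfl | rfl <;> rcases hb with rfl | rfl | rfl <;>
          simp [col, Fin.ext_iff] at hsame ⊢ <;> omega
      obtain ⟨rfl, h0⟩ := hab
      by_cases hij : i = j
      · subst hij; rfl
      · exfalso
        have ha : a = 1 ∨ a = 2 := (fin3_cases a).resolve_left fun h => hij (h0 h)
        have h1 : (Gr β).dist (P i a) (P i 0) = (Gr β).dist (P j a) (P i 0) := hL i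
        have h2 := f_le_dist i (P j a)
        have h3 : f i (P j a) = 3 := by simp [f, Ne.symm hij]
        rcases ha with rfl | rfl
        · have := dist_A i; omega
        · have := dist_B i; omega
    · exfalso
      have hi := i.isLt
      simp only [col] at hsame
      split_ifs at hsame <;> simp [Fin.ext_iff] at hsame
      omega
    · exfalso
      have hi := i.isLt
      simp only [col] at hsame
      split_ifs at hsame <;> simp [Fin.ext_iff] at hsame
      omega
    · exfalso
      have hi := j.isLt
      simp only [col] at hsame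
      split_ifs at hsame <;> simp [Fin.ext_iff] at hsame
      omega
    · -- both of the form `v s`
      have key : ∀ (s s' : Fin β → Fin 3), (∀ i : Fin β, (Gr β).dist (v s) (P i 0) =
          (Gr β).dist (v s') (P i 0)) → ∀ i, (s' i).val ≤ (s i).val := by
        intro s s' h i
        by_contra hlt
        push Not at hlt
        have h1 := dist_v i s (by have := (s' i).isLt; omega)
        have h2 := f_le_dist i (v s')
        have h3 : f i (v s') = (s' i).val + 2 := rfl
        have h4 := h i
        omega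
      have : s = s' := by
        funext i
        apply Fin.ext
        exact le_antisymm (key s' s (fun i => (hL i).symm) i) (key s s' hL i)
      rw [this]
    · simp [col, Fin.ext_iff] at hsame
    · exfalso
      have hi := j.isLt
      simp only [col] at hsame
      split_ifs at hsame <;> simp [Fin.ext_iff] at hsame
      omega
    · simp [col, Fin.ext_iff] at hsame
    · rfl

theorem col_surj (hβ : 0 < β) : Function.Surjective (col (β := β)) := by
  intro k
  have hk := k.isLt
  by_cases h1 : k.val < β
  · exact ⟨P ⟨k.val, h1⟩ 0, by simp [col]⟩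
  · have h2 : k.val = β ∨ k.val = β + 1 ∨ k.val = β + 2 ∨ k.val = β + 3 := by omega
    rcases h2 with h | h | h | h
    · exact ⟨P ⟨0, hβ⟩ 1, by simp [col, Fin.ext_iff, h]⟩
    · exact ⟨P ⟨0, hβ⟩ 2, by simp [col, Fin.ext_iff, h]⟩
    · exact ⟨v (fun _ => 0), by simp [col, Fin.ext_iff, h]⟩
    · exact ⟨W, by simp [col, Fin.ext_iff, h]⟩

theorem upper (hβ : 0 < β) : locatingChromaticNumber (Gr β) ≤ β + 4 :=
  Nat.sInf_le ⟨col, col_surj hβ, col_locating⟩

end Upper

/-! ### The lower bound -/

/-- In a connected graph with all distances at most `8` a locating colouring with `k` colours exists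
only if there are at most `k * 8 ^ k` vertices. -/
theorem card_le {V : Type*} [Fintype V] (G : SimpleGraph V) (hG : G.Connected)
    (hd : ∀ x y, G.dist x y ≤ 8) {k : ℕ} (c : V → Fin k) (hs : Function.Surjective c)
    (hc : IsLocating G c) : Fintype.card V ≤ k * 8 ^ k := by
  classical
  have hle : ∀ x j, distToSet G x {w | c w = j} ≤ 8 := by
    intro x j
    obtain ⟨w, hw⟩ := hs j
    have h1 : G.dist x w ∈ G.dist x '' {w | c w = j} := ⟨w, hw, rfl⟩
    exact (Nat.sInf_le h1).trans (hd x w)
  have hself : ∀ x, distToSet G x {w | c w = c x} = 0 := by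
    intro x
    unfold distToSet
    rw [Nat.sInf_eq_zero]
    left
    exact ⟨x, rfl, SimpleGraph.dist_self⟩
  have hpos : ∀ x j, j ≠ c x → 1 ≤ distToSet G x {w | c w = j} := by
    intro x j hj
    rw [Nat.one_le_iff_ne_zero]
    intro h0
    unfold distToSet at h0
    rcases Nat.sInf_eq_zero.1 h0 with ⟨w, hw, hw0⟩ | h
    · have hxw := hG.dist_eq_zero_iff.1 hw0
      apply hj
      rw [hxw]
      exact (show c w = j from hw).symm
    · obtain ⟨w, hw⟩ := hs j
      have : G.dist x w ∈ G.dist x '' {w | c w = j} := ⟨w, hw, rfl⟩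
      rw [h] at this
      exact this
  let F : V → Fin k × (Fin k → Fin 8) := fun x =>
    (c x, fun j => (⟨distToSet G x {w | c w = j} - 1, by have := hle x j; omega⟩ : Fin 8))
  have hF : Function.Injective F := by
    intro x y hxy
    have h1 : c x = c y := congrArg Prod.fst hxy
    have h2 := congrArg Prod.snd hxy
    apply hc.2
    intro j
    by_cases hj : j = c x
    · rw [hj, hself x, h1, hself y]
    · have h3 := congrArg Fin.val (congrFun h2 j)
      have h3' : distToSet G x {w | c w = j} - 1 = distToSet G y {w | c w = j} - 1 := h3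
      have h4 := hpos x j hj
      have h5 := hpos y j (by rw [← h1]; exact hj)
      omega
  have := Fintype.card_le_of_injective F hF
  simpa using this

theorem dist_prod {V : Type*} (G : SimpleGraph V) (h : ∀ x y, Reach G 4 x y) (x y : V × V) :
    (G □ G).dist x y ≤ 8 := by
  have h1 : Reach (G □ G) 4 (x.1, x.2) (y.1, x.2) :=
    (h x.1 y.1).map (G.boxProdLeft G x.2).toHom
  have h2 : Reach (G □ G) 4 (y.1, x.2) (y.1, y.2) :=
    (h x.2 y.2).map (G.boxProdRight G y.1).toHom
  exact (h1.trans h2).dist_le

theorem exists_large (a : ℕ) : ∃ β : ℕ, 0 < β ∧ (β + a) * 8 ^ (β + a) < 9 ^ β := by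
  have h := tendsto_pow_const_div_const_pow_of_one_lt 1 (r := (9 / 8 : ℝ)) (by norm_num)
  have hpos : (0 : ℝ) < 1 / (2 * 8 ^ a) := by positivity
  have hev := (h.eventually (gt_mem_nhds hpos)).and (Filter.eventually_ge_atTop (a + 1))
  obtain ⟨β, h1, h2⟩ := hev.exists
  refine ⟨β, by omega, ?_⟩
  have h3 : (0 : ℝ) < (9 / 8) ^ β := by positivity
  rw [div_lt_div_iff₀ h3 (by positivity), pow_one, one_mul, div_pow,
    lt_div_iff₀ (by positivity)] at h1
  have h4 : ((β : ℝ) + a) ≤ 2 * β := by
    have : (a : ℝ) + 1 ≤ β := by exact_mod_cast h2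
    linarith
  have h5 : (((β + a) * 8 ^ (β + a) : ℕ) : ℝ) < ((9 ^ β : ℕ) : ℝ) := by
    push_cast
    calc ((β : ℝ) + a) * 8 ^ (β + a) ≤ (2 * β) * 8 ^ (β + a) := by gcongr
      _ = (β : ℝ) * (2 * 8 ^ a) * 8 ^ β := by rw [pow_add]; ring
      _ < 9 ^ β := h1
  exact_mod_cast h5

/-- **No additive constant works.** For every `t` there is a finite connected graph `G` with
`χ_L(G □ G) ≥ max {χ_L(G), χ_L(G)} + t`. -/
theorem result : ∀ t : ℕ, ∃ (V : Type) (_ : Fintype V) (G : SimpleGraph V), G.Connected ∧
    max (locatingChromaticNumber G) (locatingChromaticNumber G) + t ≤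
      locatingChromaticNumber (G □ G) := by
  intro t
  obtain ⟨β, hβ, hlarge⟩ := exists_large (t + 4)
  refine ⟨Vx β, inferInstance, Gr β, connected, ?_⟩
  rw [max_self]
  have hup := upper hβ
  have hconn : (Gr β □ Gr β).Connected := (connected (β := β)).boxProd connected
  by_contra hlt
  push Not at hlt
  have hne : {k | ∃ c : Vx β × Vx β → Fin k, Function.Surjective c ∧
      IsLocating (Gr β □ Gr β) c}.Nonempty := by
    let e := Fintype.equivFin (Vx β × Vx β)
    refine ⟨Fintype.card (Vx β × Vx β), e, e.surjective, ?_, ?_⟩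
    · intro u w huw h
      exact huw.ne (e.injective h)
    · intro x y hxy
      have h1 := hxy (e x)
      have h2 : {w | e w = e x} = {x} := by
        ext w; simp
      rw [h2, distToSet_singleton, distToSet_singleton, SimpleGraph.dist_self] at h1
      exact (hconn.dist_eq_zero_iff.1 h1.symm).symm
  obtain ⟨c, hs, hc⟩ := Nat.sInf_mem hne
  have hcard := card_le _ hconn (dist_prod _ reach4) c hs hc
  have hk : locatingChromaticNumber (Gr β □ Gr β) ≤ β + (t + 4) := by omega
  have h9 : 9 ^ β ≤ Fintype.card (Vx β × Vx β) := by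
    rw [Fintype.card_prod]
    have h3 : 3 ^ β ≤ Fintype.card (Vx β) := by
      simp only [Fintype.card_sum, Fintype.card_prod, Fintype.card_fin, Fintype.card_pi,
        Finset.prod_const, Finset.card_univ, Fintype.card_unit]
      omega
    calc 9 ^ β = 3 ^ β * 3 ^ β := by rw [← mul_pow]; norm_num
      _ ≤ _ := Nat.mul_le_mul h3 h3
  have hmono : locatingChromaticNumber (Gr β □ Gr β) *
      8 ^ locatingChromaticNumber (Gr β □ Gr β) ≤ (β + (t + 4)) * 8 ^ (β + (t + 4)) :=
    Nat.mul_le_mul hk (Nat.pow_le_pow_right (by norm_num) hk)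
  have : 9 ^ β ≤ (β + (t + 4)) * 8 ^ (β + (t + 4)) := h9.trans (hcard.trans hmono)
  omega

end Pool.Agent.Results.MP_fc8d4d_co.UnboundedGap
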